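import Pool.Agent.Q166.CS.Per
import Pool.Agent.H112R2.Gap

/-!
# From convex bodies to progressions
-/

set_option autoImplicit false

namespace Pool.Agent.Q166.CS

open Finset
open scoped Pointwise Topology
open Pool.Agent.TH513.IS Pool.Agent.Y806.DF

theorem body_nhds {d : ℕ} {D : Set (Fin d → ℝ)} (h : H112.SymmBody D) : D ∈ 𝓝 (0 : Fin d → ℝ) := by
  obtain ⟨hconv, -, ⟨x, hx⟩, hsymm⟩ := h
  have hneg : -x ∈ interior D := by
    have h1 : -D = D := by
      ext y
      rw [Set.mem_neg]
      exact ⟨fun hy => by simpa using hsymm _ hy, fun hy => hsymm _ hy⟩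
    have h2 : interior (-D) = -interior D := by
      have := (Homeomorph.neg (Fin d → ℝ)).preimage_interior D
      simpa using this.symm
    rw [← h1, h2, Set.mem_neg, neg_neg]
    exact hx
  have h0 : (0 : Fin d → ℝ) ∈ interior D := by
    have := hconv.interior hx hneg (a := 1 / 2) (b := 1 / 2) (by norm_num) (by norm_num) (by norm_num)
    simpa using this
  exact mem_interior_iff_mem_nhds.1 h0

/-- Discrete John for the lattice points of a symmetric convex body. -/
theorem body_gap {d : ℕ} {D : Set (Fin d → ℝ)} (h : H112.SymmBody D) :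
    ∃ (k : ℕ) (v : Fin k → (Fin d → ℤ)) (L : Fin k → ℕ), k ≤ d ∧ LinearIndependent ℤ v ∧
      (∀ a : Fin k → ℤ, (∀ i, |a i| ≤ L i) → ∑ i, a i • v i ∈ lat D) ∧
      (lat D).ncard ≤ (4 * k ^ 3) ^ k * ∏ i, (2 * L i + 1) := by
  have hsym := sym_of_body h
  have hn := body_nhds h
  have hbal : Balanced ℝ D := (balanced_iff_neg_mem h.1).2 fun x hx => h.2.2.2 x hx
  let N : Seminorm ℝ (Fin d → ℝ) := gaugeSeminorm hbal h.1 (absorbent_nhds_zero hn)
  have hN : ∀ x, N x ≤ 1 ↔ x ∈ D := by
    intro x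
    have h1 : N x = gauge D x := rfl
    rw [h1, gauge_le_one_iff_mem_closure h.1 hn, h.2.1.isClosed.closure_eq]
  have hLL : H112.LL N 1 = lat D := by
    ext c
    exact hN _
  have hfin : (H112.LL N 1).Finite := by
    rw [hLL]
    exact lat_finite h.2.1.isBounded
  obtain ⟨k, v, L, hk, hli, hm, hc⟩ := H112.discrete_john N zero_le_one hfin
  rw [hLL] at hm hc
  exact ⟨k, v, L, hk, hli, hm, hc⟩

theorem meet_gap {d : ℕ} {D : Set (Fin d → ℝ)} (h : H112.SymmBody D) {k : ℕ} {v : Fin k → (Fin d → ℤ)}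
    {L : Fin k → ℕ} (hli : LinearIndependent ℤ v)
    (hmem : ∀ a : Fin k → ℤ, (∀ i, |a i| ≤ L i) → ∑ i, a i • v i ∈ lat D)
    (hcard : (lat D).ncard ≤ (4 * k ^ 3) ^ k * ∏ i, (2 * L i + 1))
    (X : Finset (Fin d → ℤ)) (hXne : X.Nonempty) (hX : ∀ x ∈ X, x ∈ lat D) :
    ∏ i, (2 * L i + 1) ≤ (lat D).ncard ∧
    ∃ s : Fin d → ℤ, ∃ Y ⊆ X, (∀ x ∈ Y, ∃ a : Fin k → ℤ, (∀ i, |a i| ≤ L i) ∧ x = s + ∑ i, a i • v i) ∧
      X.card ≤ 4 ^ d * (4 * k ^ 3) ^ k * Y.card := by
  classical
  have hsym := sym_of_body h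
  set f : (Fin k → ℤ) → (Fin d → ℤ) := fun a => ∑ i, a i • v i with hf
  have hinj : Function.Injective f := by
    intro a b hab
    have h0 : ∑ i, (a i - b i) • v i = 0 := by
      simp only [sub_smul, Finset.sum_sub_distrib]
      exact sub_eq_zero.2 hab
    have := Fintype.linearIndependent_iff.1 hli (fun i => a i - b i) h0
    funext i
    exact sub_eq_zero.1 (this i)
  set P : Finset (Fin d → ℤ) := (H112.gapBox L).image f with hP
  have hPcard : P.card = ∏ i, (2 * L i + 1) := by
    rw [hP, Finset.card_image_of_injective _ hinj, H112.gap_card_box]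
  have hPpos : 0 < P.card := by
    rw [hPcard]
    exact Finset.prod_pos fun i _ => by omega
  have hPD : ∀ p ∈ P, p ∈ lat D := by
    intro p hp
    obtain ⟨a, ha, rfl⟩ := Finset.mem_image.1 hp
    exact hmem a (H112.gap_mem_box.1 ha)
  have hfin : (lat D).Finite := lat_finite h.2.1.isBounded
  have hfin2 : (lat ((2 : ℝ) • D)).Finite := hsym.finite 2
  refine ⟨?_, ?_⟩
  · rw [← hPcard, ← Set.ncard_coe_finset]
    exact Set.ncard_le_ncard (fun p hp => hPD p hp) hfin
  · have hM : hfin2.toFinset.card ≤ 4 ^ d * (lat D).ncard := by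
      have h1 := num_double hsym (t := 1) zero_le_one
      unfold num at h1
      rw [mul_one, one_smul, Set.ncard_eq_toFinset_card _ hfin2] at h1
      exact h1
    have hmaps : ∀ q ∈ X ×ˢ P, q.1 - q.2 ∈ hfin2.toFinset := by
      intro q hq
      obtain ⟨h1, h2⟩ := Finset.mem_product.1 hq
      rw [Set.Finite.mem_toFinset]
      have e2 : (2 : ℝ) = 1 + 1 := by norm_num
      rw [e2]
      refine hsym.sub zero_le_one zero_le_one ?_ ?_
      · rw [one_smul]; exact hX _ h1
      · rw [one_smul]; exact hPD _ h2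
    obtain ⟨s, hs⟩ : ∃ s, (X ×ˢ P).card ≤ hfin2.toFinset.card *
        ((X ×ˢ P).filter fun q => q.1 - q.2 = s).card := by
      by_contra hcon
      push Not at hcon
      have hne : hfin2.toFinset.Nonempty := by
        obtain ⟨x, hx⟩ := hXne
        obtain ⟨p, hp⟩ := Finset.card_pos.1 hPpos
        exact ⟨_, hmaps (x, p) (Finset.mem_product.2 ⟨hx, hp⟩)⟩
      have h1 := Finset.card_eq_sum_card_fiberwise hmaps
      have h2 : ∑ s ∈ hfin2.toFinset, hfin2.toFinset.card * ((X ×ˢ P).filter fun q => q.1 - q.2 = s).card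
          < ∑ s ∈ hfin2.toFinset, (X ×ˢ P).card :=
        Finset.sum_lt_sum_of_nonempty hne fun s _ => hcon s
      rw [← Finset.mul_sum, Finset.sum_const, smul_eq_mul, ← h1] at h2
      exact lt_irrefl _ h2
    refine ⟨s, X.filter fun x => x - s ∈ P, Finset.filter_subset _ _, ?_, ?_⟩
    · intro x hx
      obtain ⟨a, ha, hax⟩ := Finset.mem_image.1 (Finset.mem_filter.1 hx).2
      refine ⟨a, H112.gap_mem_box.1 ha, ?_⟩
      have : f a = x - s := hax
      show x = s + f a
      rw [this]; abel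
    · have h3 : ((X ×ˢ P).filter fun q => q.1 - q.2 = s).card ≤ (X.filter fun x => x - s ∈ P).card := by
        refine Finset.card_le_card_of_injOn (fun q => q.1) ?_ ?_
        · intro q hq
          obtain ⟨h1, h2⟩ := Finset.mem_filter.1 (Finset.mem_coe.1 hq)
          obtain ⟨h4, h5⟩ := Finset.mem_product.1 h1
          refine Finset.mem_coe.2 (Finset.mem_filter.2 ⟨h4, ?_⟩)
          have : q.1 - s = q.2 := by rw [← h2]; abel
          rw [this]; exact h5
        · intro q hq q' hq' hqq
          obtain ⟨-, h2⟩ := Finset.mem_filter.1 (Finset.mem_coe.1 hq)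
          obtain ⟨-, h2'⟩ := Finset.mem_filter.1 (Finset.mem_coe.1 hq')
          have hqq' : q.1 = q'.1 := hqq
          refine Prod.ext hqq' ?_
          have e1 : q.2 = q.1 - s := by rw [← h2]; abel
          have e2 : q'.2 = q'.1 - s := by rw [← h2']; abel
          rw [e1, e2, hqq']
      rw [Finset.card_product] at hs
      have h4 : X.card * P.card ≤ (4 ^ d * (4 * k ^ 3) ^ k * (X.filter fun x => x - s ∈ P).card) * P.card := by
        calc X.card * P.card ≤ hfin2.toFinset.card *
              ((X ×ˢ P).filter fun q => q.1 - q.2 = s).card := hs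
          _ ≤ (4 ^ d * ((4 * k ^ 3) ^ k * P.card)) * (X.filter fun x => x - s ∈ P).card := by
              refine Nat.mul_le_mul (hM.trans (Nat.mul_le_mul_left _ ?_)) h3
              rw [hPcard]; exact hcard
          _ = _ := by ring
      exact Nat.le_of_mul_le_mul_right h4 hPpos

end Pool.Agent.Q166.CS
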