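import Pool.Agent.TH513.IS.Final
import Pool.Agent.Y806.DF.A

/-!
# Sets with a companion of slow growth
-/

set_option autoImplicit false

namespace Pool.Agent.Q166.CS

open Finset
open scoped Pointwise
open Pool.Agent.TH513.IS Pool.Agent.Y806.DF

variable {G : Type*} [AddCommGroup G] [DecidableEq G]

theorem sym_of_body {d : ℕ} {D : Set (Fin d → ℝ)} (h : H112.SymmBody D) : Sym D where
  conv := h.1
  comp := h.2.1
  symm := h.2.2.2
  ne := h.2.2.1.mono interior_subset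

theorem cover_double {d : ℕ} {D : Set (Fin d → ℝ)} (h : Sym D) :
    ∃ F : Finset (Fin d → ℤ), (F.card : ℝ) ≤ 64 ^ d ∧
      ∀ v ∈ lat ((2 : ℝ) • D), ∃ f ∈ F, ∃ w ∈ lat D, v = f + w := by
  obtain ⟨F, hF, hcov⟩ := cover_two h (t := 1) one_pos le_rfl
  refine ⟨F, ?_, ?_⟩
  · have h1 := num_double h (t := 1 / 2) (by norm_num)
    have e : (2 : ℝ) * (1 / 2) = 1 := by norm_num
    rw [e] at h1
    have h2 : (0 : ℝ) < num D (1 / 2) := by exact_mod_cast num_pos h (1 / 2)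
    have h3 : (num D 1 : ℝ) ≤ 4 ^ d * num D (1 / 2) := by exact_mod_cast h1
    have h4 : (F.card : ℝ) * num D (1 / 2) ≤ 64 ^ d * num D (1 / 2) := by
      calc (F.card : ℝ) * num D (1 / 2) ≤ 16 ^ d * num D 1 := hF
        _ ≤ 16 ^ d * (4 ^ d * num D (1 / 2)) := by gcongr
        _ = 64 ^ d * num D (1 / 2) := by
            rw [← mul_assoc, ← mul_pow]; norm_num
    exact le_of_mul_le_mul_right h4 h2
  · intro v hv
    obtain ⟨f, hf, w, hw, hvw⟩ := hcov v hv
    refine ⟨f, hf, w, ?_, hvw⟩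
    rw [one_smul] at hw
    exact hw

/-- A set with a companion of slow growth, the companion not larger than the set. -/
theorem comp_small {k n : ℕ} (hk : 1 ≤ k) (hn : 2 ≤ n) {L : ℝ} (hL1 : 1 ≤ L) {A B : Finset G}
    (hB : B.Nonempty) (hBA : B.card ≤ A.card) (hAB : ((A + B).card : ℝ) ≤ L * B.card)
    (hnB : ((sm B n).card : ℝ) ≤ L * B.card) (hkn : Real.log (2 * L) ≤ (n : ℝ) ^ k) :
    ∃ (d : ℕ) (D : Set (Fin d → ℝ)) (ψ : (Fin d → ℤ) →+ G) (H₀ : AddSubgroup G) (T : Finset G),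
      (d : ℝ) ≤ 420 * (1 + Real.log (2 * L) / Real.log n) ∧ H112.SymmBody D ∧ Finite H₀ ∧
      {c : Fin d → ℤ | (fun i => (c i : ℝ)) ∈ D}.ncard * Nat.card H₀ ≤ A.card ∧
      (T.card : ℝ) ≤ 64 ^ d * (L * (2 * L) ^ (86000 * k)) ∧ H112.Covers D ψ H₀ T A := by
  classical
  obtain ⟨d, D, ψ, H₀, T, hd, hD, hH, hvol, hT, hcov⟩ := iterated hk hn hB hnB hkn
  have hsym := sym_of_body hD
  obtain ⟨F', hF', hcov'⟩ := cover_double hsym
  let part : G → Finset G := fun t => B.filter fun b =>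
    ∃ c : Fin d → ℤ, (fun i => (c i : ℝ)) ∈ D ∧ ∃ h ∈ H₀, b = t + ψ c + h
  have hBT : B ⊆ T.biUnion part := by
    intro b hb
    obtain ⟨t, ht, c, hc, h, hh, hbt⟩ := hcov b hb
    exact Finset.mem_biUnion.2 ⟨t, ht, Finset.mem_filter.2 ⟨hb, c, hc, h, hh, hbt⟩⟩
  have hTne : T.Nonempty := by
    obtain ⟨b, hb⟩ := hB
    obtain ⟨t, ht, -⟩ := hcov b hb
    exact ⟨t, ht⟩
  obtain ⟨t, ht, htB⟩ : ∃ t ∈ T, B.card ≤ T.card * (part t).card := by
    by_contra hcon
    push Not at hcon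
    have h1 : B.card ≤ ∑ t ∈ T, (part t).card := (Finset.card_le_card hBT).trans Finset.card_biUnion_le
    have h2 : ∑ t ∈ T, T.card * (part t).card < ∑ t ∈ T, B.card := Finset.sum_lt_sum_of_nonempty hTne hcon
    rw [← Finset.mul_sum, Finset.sum_const, smul_eq_mul] at h2
    have h3 := Nat.mul_le_mul_left T.card h1
    omega
  have hBpos : 0 < B.card := hB.card_pos
  have hpart : (part t).Nonempty := by
    rw [← Finset.card_pos]
    rcases Nat.eq_zero_or_pos (part t).card with h0 | h0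
    · rw [h0, mul_zero] at htB; omega
    · exact h0
  have hcard : (((A + part t).card : ℕ) : ℝ) ≤ (L * T.card) * ((part t).card : ℝ) := by
    have h1 : ((A + part t).card : ℝ) ≤ (A + B).card := by
      exact_mod_cast Finset.card_le_card (Finset.add_subset_add_left (Finset.filter_subset _ _))
    have h2 : (B.card : ℝ) ≤ T.card * (part t).card := by exact_mod_cast htB
    calc ((A + part t).card : ℝ) ≤ (A + B).card := h1
      _ ≤ L * B.card := hAB
      _ ≤ L * (T.card * (part t).card) := by gcongr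
      _ = (L * T.card) * ((part t).card : ℝ) := by ring
  obtain ⟨F, -, hFcard, hFcov⟩ := Finset.ruzsa_covering_add hpart hcard
  refine ⟨d, D, ψ, H₀, Finset.image₂ (fun f y => f + ψ y) F F', hd, hD, hH, hvol.trans hBA, ?_, ?_⟩
  · calc ((Finset.image₂ (fun f y => f + ψ y) F F').card : ℝ) ≤ F.card * F'.card := by
          exact_mod_cast Finset.card_image₂_le (fun f y => f + ψ y) F F'
      _ ≤ (L * T.card) * 64 ^ d := by gcongr
      _ ≤ (L * (2 * L) ^ (86000 * k)) * 64 ^ d := by gcongr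
      _ = 64 ^ d * (L * (2 * L) ^ (86000 * k)) := by ring
  · intro a ha
    obtain ⟨f, hf, e, he, hfe⟩ := Finset.mem_add.1 (hFcov ha)
    obtain ⟨b, hb, b', hb', hbb⟩ := Finset.mem_sub.1 he
    obtain ⟨-, c, hc, h, hh, hbt⟩ := Finset.mem_filter.1 hb
    obtain ⟨-, c', hc', h', hh', hbt'⟩ := Finset.mem_filter.1 hb'
    have h2 : c - c' ∈ lat ((2 : ℝ) • D) := by
      have e2 : (2 : ℝ) = 1 + 1 := by norm_num
      rw [e2]
      refine hsym.sub zero_le_one zero_le_one ?_ ?_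
      · rw [one_smul]; exact hc
      · rw [one_smul]; exact hc'
    obtain ⟨y, hy, w, hw, hyw⟩ := hcov' _ h2
    refine ⟨f + ψ y, Finset.mem_image₂.2 ⟨f, hf, y, hy, rfl⟩, w, hw, h - h', H₀.sub_mem hh hh', ?_⟩
    have h3 : ψ c - ψ c' = ψ y + ψ w := by rw [← map_sub, hyw, map_add]
    rw [← hfe, ← hbb, hbt, hbt']
    calc f + (t + ψ c + h - (t + ψ c' + h')) = f + (ψ c - ψ c') + (h - h') := by abel
      _ = f + (ψ y + ψ w) + (h - h') := by rw [h3]
      _ = f + ψ y + ψ w + (h - h') := by abel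

theorem sm_mono {A B : Finset G} (h : A ⊆ B) (n : ℕ) : sm A n ⊆ sm B n := by
  intro x hx
  rw [mem_sm] at hx ⊢
  obtain ⟨f, hf, hx⟩ := hx
  exact ⟨f, fun i => h (hf i), hx⟩

/-- A set with a companion of slow growth. -/
theorem companion {k n : ℕ} (hk : 1 ≤ k) (hn : 2 ≤ n) {L : ℝ} (hL1 : 1 ≤ L) {A B : Finset G}
    (hA : A.Nonempty) (hB : B.Nonempty) (hBA : (B.card : ℝ) ≤ L * A.card)
    (hAB : ((A + B).card : ℝ) ≤ L * B.card) (hnB : ((sm B n).card : ℝ) ≤ L * B.card)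
    (hkn : Real.log (2 * L) ≤ (n : ℝ) ^ k) :
    ∃ (d : ℕ) (D : Set (Fin d → ℝ)) (ψ : (Fin d → ℤ) →+ G) (H₀ : AddSubgroup G) (T : Finset G),
      (d : ℝ) ≤ 420 * (1 + 2 * Real.log (2 * L) / Real.log n) ∧ H112.SymmBody D ∧ Finite H₀ ∧
      {c : Fin d → ℤ | (fun i => (c i : ℝ)) ∈ D}.ncard * Nat.card H₀ ≤ A.card ∧
      (T.card : ℝ) ≤ 64 ^ d * (L ^ 2 * (2 * L ^ 2) ^ (86000 * (k + 1))) ∧ H112.Covers D ψ H₀ T A := by
  classical
  have hn' : (2 : ℝ) ≤ n := by exact_mod_cast hn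
  have hlogn : 0 < Real.log n := Real.log_pos (by linarith)
  have hL2 : L ≤ L ^ 2 := by nlinarith
  have hlog : Real.log (2 * L ^ 2) ≤ 2 * Real.log (2 * L) := by
    have h1 : 2 * L ^ 2 ≤ (2 * L) ^ 2 := by nlinarith
    have h2 := Real.log_le_log (by positivity) h1
    rw [Real.log_pow] at h2
    exact_mod_cast h2
  have hlog0 : 0 ≤ Real.log (2 * L) := Real.log_nonneg (by linarith)
  have hkn' : Real.log (2 * L ^ 2) ≤ (n : ℝ) ^ (k + 1) := by
    calc Real.log (2 * L ^ 2) ≤ 2 * Real.log (2 * L) := hlog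
      _ ≤ n * (n : ℝ) ^ k := by gcongr
      _ = (n : ℝ) ^ (k + 1) := by ring
  -- a companion which is not larger than `A`
  obtain ⟨B', hB', hB'A, h1, h2⟩ : ∃ B' : Finset G, B'.Nonempty ∧ B'.card ≤ A.card ∧
      ((A + B').card : ℝ) ≤ L ^ 2 * B'.card ∧ ((sm B' n).card : ℝ) ≤ L ^ 2 * B'.card := by
    rcases le_or_gt B.card A.card with hcase | hcase
    · refine ⟨B, hB, hcase, hAB.trans ?_, hnB.trans ?_⟩
      · gcongr
      · gcongr
    · obtain ⟨B', hB'B, hcard⟩ := Finset.exists_subset_card_eq hcase.le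
      refine ⟨B', ?_, hcard.le, ?_, ?_⟩
      · rw [← Finset.card_pos, hcard]; exact hA.card_pos
      · have h3 : ((A + B').card : ℝ) ≤ (A + B).card := by
          exact_mod_cast Finset.card_le_card (Finset.add_subset_add_left hB'B)
        calc ((A + B').card : ℝ) ≤ (A + B).card := h3
          _ ≤ L * B.card := hAB
          _ ≤ L * (L * A.card) := by gcongr
          _ = L ^ 2 * B'.card := by rw [hcard]; ring
      · have h3 : ((sm B' n).card : ℝ) ≤ (sm B n).card := by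
          exact_mod_cast Finset.card_le_card (sm_mono hB'B n)
        calc ((sm B' n).card : ℝ) ≤ (sm B n).card := h3
          _ ≤ L * B.card := hnB
          _ ≤ L * (L * A.card) := by gcongr
          _ = L ^ 2 * B'.card := by rw [hcard]; ring
  obtain ⟨d, D, ψ, H₀, T, hd, hD, hH, hvol, hT, hcov⟩ :=
    comp_small (k := k + 1) (by omega) hn (L := L ^ 2) (by nlinarith) hB' hB'A h1 h2 hkn'
  refine ⟨d, D, ψ, H₀, T, hd.trans ?_, hD, hH, hvol, hT, hcov⟩
  gcongr

end Pool.Agent.Q166.CS
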