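import Pool.Agent.Q166.CS.Main

/-!
# Almost periods
-/

set_option autoImplicit false

namespace Pool.Agent.Q166.CS

open Finset
open scoped Pointwise
open Pool.Agent.TH513.IS Pool.Agent.Y806.DF

variable {G : Type*} [AddCommGroup G] [DecidableEq G]

omit [DecidableEq G] in
theorem summ (g : G →₀ ℝ) (x : G) : Summable fun z => |g (z + x) - g z| := by
  classical
  refine summable_of_ne_finset_zero (s := g.support ∪ g.support.image (fun z => z - x)) ?_
  intro z hz
  rw [Finset.mem_union, not_or] at hz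
  have h1 : g z = 0 := Finsupp.notMem_support_iff.1 hz.1
  have h2 : g (z + x) = 0 := by
    by_contra hcon
    exact hz.2 (Finset.mem_image.2 ⟨z + x, Finsupp.mem_support_iff.2 hcon, by simp⟩)
  rw [h1, h2]; simp

omit [DecidableEq G] in
theorem summ0 (g : G →₀ ℝ) : Summable fun z => |g z| := by
  classical
  refine summable_of_ne_finset_zero (s := g.support) ?_
  intro z hz
  rw [Finsupp.notMem_support_iff.1 hz, abs_zero]

omit [DecidableEq G] in
theorem summx (g : G →₀ ℝ) (x : G) : Summable fun z => |g (z + x)| :=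
  (Equiv.addRight x).summable_iff.2 (summ0 g)

/-- the distance of `g` and its translate -/
noncomputable def D1 (g : G →₀ ℝ) (x : G) : ℝ := ∑' z, |g (z + x) - g z|

omit [DecidableEq G] in
theorem D1_zero (g : G →₀ ℝ) : D1 g 0 = 0 := by
  unfold D1; simp

omit [DecidableEq G] in
theorem D1_add (g : G →₀ ℝ) (x y : G) : D1 g (x + y) ≤ D1 g x + D1 g y := by
  have h1 : D1 g y = ∑' z, |g ((z + x) + y) - g (z + x)| :=
    ((Equiv.addRight x).tsum_eq (fun z => |g (z + y) - g z|)).symm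
  have hs : Summable fun z => |g ((z + x) + y) - g (z + x)| :=
    (Equiv.addRight x).summable_iff.2 (summ g y)
  rw [h1]
  unfold D1
  rw [← (summ g x).tsum_add hs]
  refine (summ g (x + y)).tsum_le_tsum (fun z => ?_) ((summ g x).add hs)
  have e : z + (x + y) = z + x + y := by abel
  rw [e]
  calc |g (z + x + y) - g z| = |(g (z + x) - g z) + (g (z + x + y) - g (z + x))| := by congr 1; ring
    _ ≤ _ := abs_add_le _ _

omit [DecidableEq G] in
theorem meet (g : G →₀ ℝ) (x : G) (h : D1 g x < 2 * ∑' z, |g z|) : ∃ z, g z ≠ 0 ∧ g (z + x) ≠ 0 := by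
  by_contra hcon
  push Not at hcon
  have h1 : ∀ z, |g (z + x) - g z| = |g (z + x)| + |g z| := by
    intro z
    by_cases hz : g z = 0
    · rw [hz]; simp
    · rw [hcon z hz]; simp
  have h2 : D1 g x = 2 * ∑' z, |g z| := by
    unfold D1
    simp_rw [h1]
    rw [(summx g x).tsum_add (summ0 g)]
    have h3 : ∑' z, |g (z + x)| = ∑' z, |g z| := (Equiv.addRight x).tsum_eq (fun z => |g z|)
    rw [h3]; ring
  linarith

/-- Sums of almost periods are differences. -/
theorem periods (g : G →₀ ℝ) (hg : g ≠ 0) (S : Finset G) (hS : g.support ⊆ S) (n : ℕ) (hn : 1 ≤ n)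
    (T : Finset G) (hT : ∀ x ∈ T, ∑' z, |g (z + x) - g z| ≤ 1 / n * ∑' z, |g z|) :
    sm T n ⊆ S - S ∧ T ⊆ S - S := by
  have hn0 : (0 : ℝ) < n := by exact_mod_cast hn
  have hpos : 0 < ∑' z, |g z| := by
    obtain ⟨z, hz⟩ := Finsupp.ne_iff.1 hg
    exact (summ0 g).tsum_pos (fun z => abs_nonneg _) z (abs_pos.2 hz)
  have hmem : ∀ x, D1 g x < 2 * ∑' z, |g z| → x ∈ S - S := by
    intro x hx
    obtain ⟨z, h1, h2⟩ := meet g x hx
    refine Finset.mem_sub.2 ⟨z + x, hS (Finsupp.mem_support_iff.2 h2), z, hS (Finsupp.mem_support_iff.2 h1), by abel⟩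
  constructor
  · intro x hx
    rw [mem_sm] at hx
    obtain ⟨f, hf, rfl⟩ := hx
    apply hmem
    have h1 : D1 g (∑ i, f i) ≤ ∑ i, D1 g (f i) :=
      Finset.le_sum_of_subadditive (D1 g) (D1_zero g).le (D1_add g) Finset.univ f
    have h2 : ∑ i, D1 g (f i) ≤ ∑ _i : Fin n, 1 / n * ∑' z, |g z| :=
      Finset.sum_le_sum fun i _ => hT _ (hf i)
    rw [Finset.sum_const, Finset.card_univ, Fintype.card_fin, nsmul_eq_mul] at h2
    have h3 : (n : ℝ) * (1 / n * ∑' z, |g z|) = ∑' z, |g z| := by field_simp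
    rw [h3] at h2
    linarith
  · intro x hx
    apply hmem
    have h1 := hT x hx
    have h2 : 1 / (n : ℝ) * ∑' z, |g z| ≤ 1 * ∑' z, |g z| := by
      gcongr
      rw [div_le_one hn0]; exact_mod_cast hn
    have h3 : D1 g x ≤ 1 * ∑' z, |g z| := h1.trans h2
    linarith

theorem plun {K : ℝ} {A : Finset G} (hA : A.Nonempty) (hK : ((A + A).card : ℝ) ≤ K * A.card) (a b : ℕ) :
    ((a • A - b • A).card : ℝ) ≤ K ^ (a + b) * A.card := by
  have hApos : (0 : ℝ) < A.card := by exact_mod_cast hA.card_pos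
  have h1 := Finset.pluennecke_ruzsa_inequality_nsmul_sub_nsmul_add hA A a b
  have h3 : (((a • A - b • A).card : ℚ≥0) : ℝ) ≤
      (((((A + A).card : ℚ≥0) / (A.card : ℚ≥0)) ^ (a + b) * A.card : ℚ≥0) : ℝ) := by
    exact_mod_cast h1
  push_cast at h3
  refine h3.trans ?_
  have h4 : ((A + A).card : ℝ) / (A.card : ℝ) ≤ K := by
    rw [div_le_iff₀ hApos]; exact hK
  gcongr

/-- Almost periods form a companion. -/
theorem periods_comp {K : ℝ} {A : Finset G} (hA : A.Nonempty) (hK1 : 1 ≤ K)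
    (hK : ((A + A).card : ℝ) ≤ K * A.card)
    (l m C : ℕ) (g : G →₀ ℝ) (hg : g ≠ 0) (hS : g.support ⊆ l • A - m • A) (n : ℕ) (hn : 1 ≤ n)
    (T : Finset G) (hTA : (A.card : ℝ) ≤ K ^ C * T.card)
    (hT : ∀ x ∈ T, ∑' z, |g (z + x) - g z| ≤ 1 / n * ∑' z, |g z|) :
    (T.card : ℝ) ≤ K ^ (C + 2 * (l + m) + 1) * A.card ∧
      ((A + T).card : ℝ) ≤ K ^ (C + 2 * (l + m) + 1) * T.card ∧
      ((sm T n).card : ℝ) ≤ K ^ (C + 2 * (l + m) + 1) * T.card := by
  obtain ⟨h1, h2⟩ := periods g hg _ hS n hn T hT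
  have e : (l • A - m • A) - (l • A - m • A) = (l + m) • A - (m + l) • A := by
    rw [add_nsmul, add_nsmul, add_sub_add_comm, sub_eq_add_neg (l • A - m • A), neg_sub]
  rw [e] at h1 h2
  have hA0 : (0 : ℝ) ≤ A.card := Nat.cast_nonneg _
  have hT0 : (0 : ℝ) ≤ T.card := Nat.cast_nonneg _
  have p1 := plun hA hK (l + m) (m + l)
  have p2 := plun hA hK (l + m + 1) (m + l)
  have h3 : (T.card : ℝ) ≤ ((l + m) • A - (m + l) • A).card := by exact_mod_cast Finset.card_le_card h2
  have h4 : ((sm T n).card : ℝ) ≤ ((l + m) • A - (m + l) • A).card := by exact_mod_cast Finset.card_le_card h1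
  have h5 : ((A + T).card : ℝ) ≤ ((l + m + 1) • A - (m + l) • A).card := by
    have h6 : A + T ⊆ (l + m + 1) • A - (m + l) • A := by
      rw [succ_nsmul', add_sub_assoc]
      exact Finset.add_subset_add_left h2
    exact_mod_cast Finset.card_le_card h6
  refine ⟨?_, ?_, ?_⟩
  · calc (T.card : ℝ) ≤ K ^ (l + m + (m + l)) * A.card := h3.trans p1
      _ ≤ K ^ (C + 2 * (l + m) + 1) * A.card :=
          mul_le_mul_of_nonneg_right (pow_le_pow_right₀ hK1 (by omega)) hA0
  · calc ((A + T).card : ℝ) ≤ K ^ (l + m + 1 + (m + l)) * A.card := h5.trans p2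
      _ ≤ K ^ (l + m + 1 + (m + l)) * (K ^ C * T.card) := by gcongr
      _ = K ^ (C + 2 * (l + m) + 1) * T.card := by
          rw [← mul_assoc, ← pow_add]
          congr 2
          omega
  · calc ((sm T n).card : ℝ) ≤ K ^ (l + m + (m + l)) * A.card := h4.trans p1
      _ ≤ K ^ (l + m + (m + l)) * (K ^ C * T.card) := by gcongr
      _ = K ^ (l + m + (m + l) + C) * T.card := by
          rw [← mul_assoc, ← pow_add]
      _ ≤ K ^ (C + 2 * (l + m) + 1) * T.card :=
          mul_le_mul_of_nonneg_right (pow_le_pow_right₀ hK1 (by omega)) hT0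

/-- The constant. -/
def EE (k C : ℕ) : ℕ := 2600 * (2 * C + 3) + 2 * C + (2 * C + 1) * (86000 * (k + C + 2))

/-- Sets of integers with a companion of slow growth. -/
theorem coreZ (k C : ℕ) (K : ℝ) (hK : 2 ≤ K) (A B : Finset ℤ) (hA : A.Nonempty) (hB : B.Nonempty) (n : ℕ)
    (hn : 2 ≤ n) (hkn : Real.log K ≤ (n : ℝ) ^ k) (h1 : (B.card : ℝ) ≤ K ^ C * A.card)
    (h2 : ((A + B).card : ℝ) ≤ K ^ C * B.card) (h3 : ((sm B n).card : ℝ) ≤ K ^ C * B.card) :
    ∃ (d : ℕ) (D : Set (Fin d → ℝ)) (v : Fin d → ℤ) (T : Finset ℤ),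
      (d : ℝ) ≤ EE k C * Real.log K ∧
      Convex ℝ D ∧ IsCompact D ∧ (interior D).Nonempty ∧ (∀ x ∈ D, -x ∈ D) ∧
      {x : Fin d → ℤ | (fun i => (x i : ℝ)) ∈ D}.ncard ≤ A.card ∧
      (T.card : ℝ) ≤ EE k C * K ^ (EE k C) ∧
      ∀ a ∈ A, ∃ t ∈ T, ∃ x : Fin d → ℤ, (fun i => (x i : ℝ)) ∈ D ∧ a = t + ∑ i, v i * x i := by
  have hK1 : 1 ≤ K := by linarith
  have hn' : (2 : ℝ) ≤ n := by exact_mod_cast hn
  have hlog2 := Real.log_two_gt_d9
  have hlog2' := Real.log_two_lt_d9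
  have hlogn : Real.log 2 ≤ Real.log n := Real.log_le_log (by norm_num) hn'
  have hlogK : Real.log 2 ≤ Real.log K := Real.log_le_log (by norm_num) hK
  have hlogK0 : 0 < Real.log K := by linarith
  have hL1 : 1 ≤ K ^ C := one_le_pow₀ hK1
  have hlogL : Real.log (2 * K ^ C) ≤ (C + 1) * Real.log K := by
    rw [Real.log_mul (by norm_num) (by positivity), Real.log_pow]
    linarith
  have hlogL0 : 0 ≤ Real.log (2 * K ^ C) := Real.log_nonneg (by linarith)
  have hkn' : Real.log (2 * K ^ C) ≤ (n : ℝ) ^ (k + C + 1) := by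
    have h4 : ((C : ℝ) + 1) ≤ (n : ℝ) ^ (C + 1) := by
      have h5 : C + 1 < 2 ^ (C + 1) := Nat.lt_two_pow_self
      have h6 : ((C : ℝ) + 1) ≤ 2 ^ (C + 1) := by exact_mod_cast h5.le
      exact h6.trans (by gcongr)
    calc Real.log (2 * K ^ C) ≤ (C + 1) * Real.log K := hlogL
      _ ≤ (n : ℝ) ^ (C + 1) * (n : ℝ) ^ k := by gcongr
      _ = (n : ℝ) ^ (k + C + 1) := by rw [← pow_add]; congr 1; omega
  obtain ⟨d, D, ψ, H₀, T, hd, hD, hH, hvol, hT, hcov⟩ :=
    companion (k := k + C + 1) (by omega) hn hL1 hA hB h1 h2 h3 hkn'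
  have hd' : (d : ℝ) ≤ 609 * (2 * C + 3) * Real.log K := by
    have h4 : Real.log (2 * K ^ C) / Real.log n ≤ 1.45 * ((C + 1) * Real.log K) := by
      rw [div_le_iff₀ (by linarith)]
      have h5 : 1 ≤ 1.45 * Real.log n := by linarith
      calc Real.log (2 * K ^ C) ≤ (C + 1) * Real.log K := hlogL
        _ = (C + 1) * Real.log K * 1 := by ring
        _ ≤ (C + 1) * Real.log K * (1.45 * Real.log n) := by gcongr
        _ = _ := by ring
    have h6 : 1 ≤ 1.45 * Real.log K := by linarith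
    calc (d : ℝ) ≤ 420 * (1 + 2 * Real.log (2 * K ^ C) / Real.log n) := hd
      _ = 420 * (1 + 2 * (Real.log (2 * K ^ C) / Real.log n)) := by ring
      _ ≤ 420 * (1.45 * Real.log K + 2 * (1.45 * ((C + 1) * Real.log K))) := by gcongr
      _ = 609 * (2 * C + 3) * Real.log K := by ring
  have hE : (2600 * (2 * (C : ℝ) + 3)) ≤ (EE k C : ℕ) := by
    have : 2600 * (2 * C + 3) ≤ EE k C := by unfold EE; omega
    exact_mod_cast this
  have hC0 : (0 : ℝ) ≤ C := Nat.cast_nonneg _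
  refine ⟨d, D, fun i => ψ (Pi.single i 1), T, ?_, hD.1, hD.2.1, hD.2.2.1, hD.2.2.2, ?_, ?_, ?_⟩
  · calc (d : ℝ) ≤ 609 * (2 * C + 3) * Real.log K := hd'
      _ ≤ (EE k C : ℕ) * Real.log K := by
          have : 609 * (2 * (C : ℝ) + 3) ≤ (EE k C : ℕ) := by linarith
          gcongr
  · have h4 : 0 < Nat.card H₀ := Nat.card_pos
    exact (Nat.le_mul_of_pos_right _ h4).trans hvol
  · have h64 : (64 : ℝ) ^ d ≤ K ^ (2600 * (2 * C + 3)) := by
      rw [← Real.log_le_log_iff (by positivity) (by positivity), Real.log_pow, Real.log_pow]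
      have h5 : Real.log 64 = 6 * Real.log 2 := by
        have : (64 : ℝ) = 2 ^ 6 := by norm_num
        rw [this, Real.log_pow]; norm_num
      rw [h5]
      push_cast
      calc (d : ℝ) * (6 * Real.log 2) ≤ (609 * (2 * C + 3) * Real.log K) * (6 * 0.6931471808) := by
            gcongr
        _ ≤ (2600 * (2 * C + 3)) * Real.log K := by nlinarith [mul_nonneg (by linarith : (0:ℝ) ≤ 2 * C + 3) hlogK0.le]
    have h5 : 2 * (K ^ C) ^ 2 ≤ K ^ (2 * C + 1) := by
      calc 2 * (K ^ C) ^ 2 ≤ K * (K ^ C) ^ 2 := by gcongr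
        _ = K ^ (2 * C + 1) := by rw [← pow_mul]; ring
    have hE1 : (1 : ℝ) ≤ (EE k C : ℕ) := by linarith
    calc (T.card : ℝ) ≤ 64 ^ d * ((K ^ C) ^ 2 * (2 * (K ^ C) ^ 2) ^ (86000 * (k + C + 1 + 1))) := hT
      _ ≤ K ^ (2600 * (2 * C + 3)) * ((K ^ C) ^ 2 * (K ^ (2 * C + 1)) ^ (86000 * (k + C + 1 + 1))) := by gcongr
      _ = K ^ (EE k C) := by
          rw [← pow_mul, ← pow_mul, ← pow_add, ← pow_add]
          congr 1
          unfold EE
          ring
      _ = 1 * K ^ (EE k C) := by ring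
      _ ≤ (EE k C : ℕ) * K ^ (EE k C) := by gcongr
  · intro a ha
    obtain ⟨t, ht, c, hc, h, hh, hat⟩ := hcov a ha
    refine ⟨t, ht, c, hc, ?_⟩
    have hh0 : h = 0 := by
      by_contra hne
      have hfin : (H₀ : Set ℤ).Finite := Set.toFinite _
      have hinj : Function.Injective (fun j : ℕ => (j : ℤ) * h) := by
        intro i j hij
        have := mul_right_cancel₀ hne hij
        exact_mod_cast this
      have hsub : Set.range (fun j : ℕ => (j : ℤ) * h) ⊆ (H₀ : Set ℤ) := by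
        rintro _ ⟨j, rfl⟩
        have := H₀.nsmul_mem hh j
        simpa [nsmul_eq_mul] using this
      exact (Set.infinite_range_of_injective hinj) (hfin.subset hsub)
    rw [hat, hh0, add_zero]
    congr 1
    have h4 : c = ∑ i, c i • (Pi.single i 1 : Fin d → ℤ) := by
      funext j
      rw [Finset.sum_apply, Finset.sum_eq_single j]
      · simp
      · intro i _ hij
        simp [Pi.single_eq_of_ne (Ne.symm hij)]
      · simp
    conv_lhs => rw [h4]
    rw [map_sum]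
    exact Finset.sum_congr rfl fun i _ => by rw [map_zsmul, smul_eq_mul]; ring

end Pool.Agent.Q166.CS
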