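import Pool.Agent.Q166.CS.Gap

/-!
# Companions of slow growth in torsion-free groups: progressions
-/

set_option autoImplicit false

namespace Pool.Agent.Q166.CS

open Finset
open scoped Pointwise Topology
open Pool.Agent.TH513.IS Pool.Agent.Y806.DF

variable {G : Type*} [AddCommGroup G] [DecidableEq G]

/-- The cost of the passage from convex bodies to progressions. -/
theorem cost {k C n d : ℕ} {K : ℝ} (hK : 2 ≤ K) (hn : 2 ≤ n) (hkn : Real.log K ≤ (n : ℝ) ^ k)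
    (hd : (d : ℝ) ≤ 420 * (1 + 2 * ((C + 1) * Real.log K) / Real.log n)) :
    ((1024 * (d : ℝ) ^ 3) ^ d) ≤ K ^ (420 * (2 * C + 3) * (14 + 6 * (840 * (2 * C + 3)) + 3 * k)) := by
  have hn' : (2 : ℝ) ≤ n := by exact_mod_cast hn
  have hlog2 := Real.log_two_gt_d9
  have hlog2' := Real.log_two_lt_d9
  have hlogn : Real.log 2 ≤ Real.log n := Real.log_le_log (by norm_num) hn'
  have hlogK : Real.log 2 ≤ Real.log K := Real.log_le_log (by norm_num) hK
  set u := Real.log K with hu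
  set w := Real.log n with hw
  have hu0 : 0 < u := by linarith
  have hw0 : 0 < w := by linarith
  have hC0 : (0 : ℝ) ≤ C := Nat.cast_nonneg _
  have hk0 : (0 : ℝ) ≤ k := Nat.cast_nonneg _
  rcases Nat.eq_zero_or_pos d with h0 | hpos
  · subst h0
    rw [pow_zero]
    exact one_le_pow₀ (by linarith)
  have hd1 : (1 : ℝ) ≤ d := by exact_mod_cast hpos
  have hd0 : (0 : ℝ) < d := by linarith
  set c₂ : ℝ := 840 * (2 * C + 3) with hc₂
  have hc₂1 : 1 ≤ c₂ := by rw [hc₂]; linarith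
  have hlog1024 : Real.log 1024 ≤ 7 := by
    have : (1024 : ℝ) = 2 ^ 10 := by norm_num
    rw [this, Real.log_pow]
    push_cast
    linarith
  rw [← Real.log_le_log_iff (by positivity) (by positivity), Real.log_pow, Real.log_pow,
    Real.log_mul (by norm_num) (by positivity), Real.log_pow]
  push_cast
  rw [← hu, ← hc₂]
  rcases le_or_gt w u with hcase | hcase
  · -- `d ≤ 420 (2C+3) u / w`
    have h1 : (d : ℝ) ≤ 420 * (2 * C + 3) * (u / w) := by
      have h2 : 1 ≤ u / w := by rw [le_div_iff₀ hw0]; linarith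
      calc (d : ℝ) ≤ 420 * (1 + 2 * ((C + 1) * u) / w) := hd
        _ = 420 * (1 + 2 * (C + 1) * (u / w)) := by ring
        _ ≤ 420 * (u / w + 2 * (C + 1) * (u / w)) := by gcongr
        _ = _ := by ring
    have h3 : (d : ℝ) ≤ c₂ * (n : ℝ) ^ k := by
      have h4 : u / w ≤ 2 * u := by
        rw [div_le_iff₀ hw0]
        nlinarith
      calc (d : ℝ) ≤ 420 * (2 * C + 3) * (u / w) := h1
        _ ≤ 420 * (2 * C + 3) * (2 * u) := by gcongr
        _ = c₂ * u := by rw [hc₂]; ring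
        _ ≤ c₂ * (n : ℝ) ^ k := by gcongr
    have h5 : Real.log d ≤ c₂ + k * w := by
      have h6 := Real.log_le_log hd0 h3
      rw [Real.log_mul (by positivity) (by positivity), Real.log_pow, ← hw] at h6
      have h7 := Real.log_le_sub_one_of_pos (by linarith : (0 : ℝ) < c₂)
      linarith
    have h8 : Real.log 1024 + (3 : ℝ) * Real.log d ≤ (14 + 6 * c₂ + 3 * k) * w := by
      have h9 : 1 ≤ 2 * w := by linarith
      nlinarith [mul_nonneg hk0 hw0.le]
    have h80 : 0 ≤ (14 + 6 * c₂ + 3 * k) * w := by positivity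
    calc (d : ℝ) * (Real.log 1024 + 3 * Real.log d) ≤ (d : ℝ) * ((14 + 6 * c₂ + 3 * k) * w) := by gcongr
      _ ≤ (420 * (2 * C + 3) * (u / w)) * ((14 + 6 * c₂ + 3 * k) * w) := by gcongr
      _ = 420 * (2 * C + 3) * (14 + 6 * c₂ + 3 * k) * u := by field_simp
  · have h1 : (d : ℝ) ≤ 420 * (2 * C + 3) := by
      have h2 : u / w ≤ 1 := by rw [div_le_iff₀ hw0]; linarith
      calc (d : ℝ) ≤ 420 * (1 + 2 * ((C + 1) * u) / w) := hd
        _ = 420 * (1 + 2 * (C + 1) * (u / w)) := by ring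
        _ ≤ 420 * (1 + 2 * (C + 1) * 1) := by gcongr
        _ = _ := by ring
    have h5 : Real.log d ≤ c₂ := by
      have h7 := Real.log_le_sub_one_of_pos hd0
      have : (d : ℝ) ≤ c₂ := by rw [hc₂]; linarith
      linarith
    have h8 : Real.log 1024 + (3 : ℝ) * Real.log d ≤ (14 + 6 * c₂ + 3 * k) * u := by
      have h9 : 1 ≤ 2 * u := by linarith
      nlinarith [mul_nonneg hk0 hu0.le]
    have h80 : 0 ≤ (14 + 6 * c₂ + 3 * k) * u := by positivity
    calc (d : ℝ) * (Real.log 1024 + 3 * Real.log d) ≤ (d : ℝ) * ((14 + 6 * c₂ + 3 * k) * u) := by gcongr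
      _ ≤ (420 * (2 * C + 3)) * ((14 + 6 * c₂ + 3 * k) * u) := by gcongr
      _ = 420 * (2 * C + 3) * (14 + 6 * c₂ + 3 * k) * u := by ring

/-- The constant. -/
def EG (k C : ℕ) : ℕ := 420 * (2 * C + 3) * (14 + 6 * (840 * (2 * C + 3)) + 3 * k) + 2 * C +
  (2 * C + 1) * (86000 * (k + C + 2))

theorem le_EG (k C : ℕ) : 420 * (2 * C + 3) ≤ EG k C := by
  unfold EG
  have h6 : 420 * (2 * C + 3) ≤ 420 * (2 * C + 3) * (14 + 6 * (840 * (2 * C + 3)) + 3 * k) :=
    Nat.le_mul_of_pos_right _ (by positivity)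
  exact h6.trans ((Nat.le_add_right _ _).trans (Nat.le_add_right _ _))

theorem pow_cost {r d : ℕ} (hr : r ≤ d) : (4 * (r : ℝ) ^ 3) ^ r ≤ (4 * (d : ℝ) ^ 3) ^ d := by
  rcases Nat.eq_zero_or_pos r with rfl | hpos
  · rcases Nat.eq_zero_or_pos d with rfl | hpos'
    · exact le_rfl
    · have : (1 : ℝ) ≤ d := by exact_mod_cast hpos'
      have h3 : (1 : ℝ) ≤ (d : ℝ) ^ 3 := one_le_pow₀ this
      rw [pow_zero]
      exact one_le_pow₀ (by linarith)
  · have h7 : (1 : ℝ) ≤ d := by exact_mod_cast le_trans hpos hr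
    have h8 : (1 : ℝ) ≤ (d : ℝ) ^ 3 := one_le_pow₀ h7
    have h9 : (r : ℝ) ≤ d := by exact_mod_cast hr
    calc (4 * (r : ℝ) ^ 3) ^ r ≤ (4 * (d : ℝ) ^ 3) ^ r := by gcongr
      _ ≤ (4 * (d : ℝ) ^ 3) ^ d := pow_le_pow_right₀ (by linarith) hr

theorem final_arith {K : ℝ} (hK : 2 ≤ K) {C d r E1 E2 : ℕ} {a t y : ℝ} (hr : r ≤ d) (hy : 0 ≤ y)
    (ht : t ≤ 64 ^ d * ((K ^ C) ^ 2 * (2 * (K ^ C) ^ 2) ^ E2))
    (h4 : a ≤ t * (4 ^ d * (4 * (r : ℝ) ^ 3) ^ r * y)) (hcost : (1024 * (d : ℝ) ^ 3) ^ d ≤ K ^ E1) :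
    a ≤ K ^ (E1 + 2 * C + (2 * C + 1) * E2) * y := by
  have h6 := pow_cost hr
  have h10 : 2 * (K ^ C) ^ 2 ≤ K ^ (2 * C + 1) := by
    calc 2 * (K ^ C) ^ 2 ≤ K * (K ^ C) ^ 2 := by gcongr
      _ = K ^ (2 * C + 1) := by rw [← pow_mul]; ring
  have hK0 : 0 < K := by linarith
  calc a ≤ t * (4 ^ d * (4 * (r : ℝ) ^ 3) ^ r * y) := h4
    _ ≤ (64 ^ d * ((K ^ C) ^ 2 * (2 * (K ^ C) ^ 2) ^ E2)) * (4 ^ d * (4 * (d : ℝ) ^ 3) ^ d * y) := by gcongr
    _ = ((1024 * (d : ℝ) ^ 3) ^ d) * ((K ^ C) ^ 2 * (2 * (K ^ C) ^ 2) ^ E2) * y := by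
        have e : (1024 * (d : ℝ) ^ 3) ^ d = 64 ^ d * 4 ^ d * (4 * (d : ℝ) ^ 3) ^ d := by
          rw [← mul_pow, ← mul_pow]
          congr 1
          ring
        rw [e]; ring
    _ ≤ K ^ E1 * ((K ^ C) ^ 2 * (K ^ (2 * C + 1)) ^ E2) * y := by gcongr
    _ = K ^ (E1 + 2 * C + (2 * C + 1) * E2) * y := by
        congr 1
        rw [← pow_mul, ← pow_mul, pow_add, pow_add, mul_assoc]
        congr 2
        rw [mul_comm C 2]

omit [DecidableEq G] in
theorem torsion_free_bot (htf : ∀ (n : ℕ) (x : G), n ≠ 0 → n • x = 0 → x = 0) (H : AddSubgroup G) [Finite H] :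
    ∀ x ∈ H, x = 0 := by
  intro x hx
  have h1 : Nat.card H • (⟨x, hx⟩ : H) = 0 := card_nsmul_eq_zero'
  have h2 : Nat.card H • x = 0 := by
    have h3 := congrArg H.subtype h1
    rw [map_nsmul, map_zero] at h3
    exact h3
  exact htf _ x Nat.card_pos.ne' h2

theorem slow_gap (htf : ∀ (n : ℕ) (x : G), n ≠ 0 → n • x = 0 → x = 0) (k C : ℕ) (K : ℝ) (hK : 2 ≤ K)
    (A B : Finset G) (hA : A.Nonempty) (hB : B.Nonempty) (n : ℕ)
    (hn : 2 ≤ n) (hkn : Real.log K ≤ (n : ℝ) ^ k) (h1 : (B.card : ℝ) ≤ K ^ C * A.card)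
    (h2 : ((A + B).card : ℝ) ≤ K ^ C * B.card) (h3 : ((sm B n).card : ℝ) ≤ K ^ C * B.card) :
    ∃ (r : ℕ) (a : G) (v : Fin r → G) (N : Fin r → ℕ) (Y : Finset G),
      (r : ℝ) ≤ EG k C * (1 + Real.log K / Real.log n) ∧ (∀ i, 1 ≤ N i) ∧ ∏ i, N i ≤ A.card ∧
      Y ⊆ A ∧ (∀ x ∈ Y, ∃ c : Fin r → ℕ, (∀ i, c i < N i) ∧ x = a + ∑ i, c i • v i) ∧
      (A.card : ℝ) ≤ K ^ (EG k C) * Y.card := by
  classical
  have hK1 : 1 ≤ K := by linarith
  have hn' : (2 : ℝ) ≤ n := by exact_mod_cast hn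
  have hlog2 := Real.log_two_gt_d9
  have hlogn : Real.log 2 ≤ Real.log n := Real.log_le_log (by norm_num) hn'
  have hlogK : Real.log 2 ≤ Real.log K := Real.log_le_log (by norm_num) hK
  have hlogK0 : 0 < Real.log K := by linarith
  have hlogn0 : 0 < Real.log n := by linarith
  have hL1 : 1 ≤ K ^ C := one_le_pow₀ hK1
  have hC0 : (0 : ℝ) ≤ C := Nat.cast_nonneg _
  have hlogL : Real.log (2 * K ^ C) ≤ (C + 1) * Real.log K := by
    rw [Real.log_mul (by norm_num) (by positivity), Real.log_pow]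
    linarith
  have hlogL0 : 0 ≤ Real.log (2 * K ^ C) := Real.log_nonneg (by linarith)
  have hkn' : Real.log (2 * K ^ C) ≤ (n : ℝ) ^ (k + C + 1) := by
    have h4 : ((C : ℝ) + 1) ≤ (n : ℝ) ^ (C + 1) := by
      have h5 : C + 1 < 2 ^ (C + 1) := Nat.lt_two_pow_self
      have h6 : ((C : ℝ) + 1) ≤ 2 ^ (C + 1) := by exact_mod_cast h5.le
      exact h6.trans (by gcongr)
    calc Real.log (2 * K ^ C) ≤ (C + 1) * Real.log K := hlogL
      _ ≤ (n : ℝ) ^ (C + 1) * (n : ℝ) ^ k := by gcongr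
      _ = (n : ℝ) ^ (k + C + 1) := by rw [← pow_add]; congr 1; omega
  obtain ⟨d, D, ψ, H₀, T, hd, hD, hH, hvol, hT, hcov⟩ :=
    companion (k := k + C + 1) (by omega) hn hL1 hA hB h1 h2 h3 hkn'
  have hbot := torsion_free_bot htf H₀
  have hd' : (d : ℝ) ≤ 420 * (1 + 2 * ((C + 1) * Real.log K) / Real.log n) := by
    refine hd.trans ?_
    gcongr
  obtain ⟨r, v, L, hr, hli, hmem, hcard⟩ := body_gap hD
  -- the popular translate
  let part : G → Finset G := fun t => A.filter fun a => ∃ c : Fin d → ℤ, (fun i => (c i : ℝ)) ∈ D ∧ a = t + ψ c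
  have hAT : A ⊆ T.biUnion part := by
    intro a ha
    obtain ⟨t, ht, c, hc, h, hh, hat⟩ := hcov a ha
    refine Finset.mem_biUnion.2 ⟨t, ht, Finset.mem_filter.2 ⟨ha, c, hc, ?_⟩⟩
    rw [hat, hbot h hh, add_zero]
  have hTne : T.Nonempty := by
    obtain ⟨a, ha⟩ := hA
    obtain ⟨t, ht, -⟩ := hcov a ha
    exact ⟨t, ht⟩
  obtain ⟨t, ht, htA⟩ : ∃ t ∈ T, A.card ≤ T.card * (part t).card := by
    by_contra hcon
    push Not at hcon
    have h1 : A.card ≤ ∑ t ∈ T, (part t).card := (Finset.card_le_card hAT).trans Finset.card_biUnion_le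
    have h2 : ∑ t ∈ T, T.card * (part t).card < ∑ t ∈ T, A.card := Finset.sum_lt_sum_of_nonempty hTne hcon
    rw [← Finset.mul_sum, Finset.sum_const, smul_eq_mul] at h2
    have h3 := Nat.mul_le_mul_left T.card h1
    omega
  have hApos : 0 < A.card := hA.card_pos
  have hpart : (part t).Nonempty := by
    rw [← Finset.card_pos]
    rcases Nat.eq_zero_or_pos (part t).card with h0 | h0
    · rw [h0, mul_zero] at htA; omega
    · exact h0
  have hch : ∀ a : G, ∃ c : Fin d → ℤ, a ∈ part t → ((fun i => (c i : ℝ)) ∈ D ∧ a = t + ψ c) := by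
    intro a
    by_cases ha : a ∈ part t
    · obtain ⟨-, c, hc, hac⟩ := Finset.mem_filter.1 ha
      exact ⟨c, fun _ => ⟨hc, hac⟩⟩
    · exact ⟨0, fun h => absurd h ha⟩
  choose g hg using hch
  have hginj : Set.InjOn g (part t) := by
    intro a ha b hb hab
    rw [(hg a ha).2, (hg b hb).2, hab]
  set X : Finset (Fin d → ℤ) := (part t).image g with hX
  have hXcard : X.card = (part t).card := Finset.card_image_of_injOn hginj
  obtain ⟨hprod, s, Y, hYX, hY, hYcard⟩ := meet_gap hD hli hmem hcard X (hpart.image g) (by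
    intro x hx
    obtain ⟨a, ha, rfl⟩ := Finset.mem_image.1 hx
    exact (hg a ha).1)
  have hψ : ∀ a : Fin r → ℤ, ψ (∑ i, a i • v i) = ∑ i, a i • ψ (v i) := by
    intro a
    rw [map_sum]
    exact Finset.sum_congr rfl fun i _ => map_zsmul ψ _ _
  refine ⟨r, t + ψ s - ∑ i, (L i : ℤ) • ψ (v i), fun i => ψ (v i), fun i => 2 * L i + 1,
    Y.image fun c => t + ψ c, ?_, fun i => Nat.le_add_left 1 _, ?_, ?_, ?_, ?_⟩
  · have h4 : (r : ℝ) ≤ d := by exact_mod_cast hr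
    have h5 : (420 * (2 * (C : ℝ) + 3)) ≤ (EG k C : ℕ) := by exact_mod_cast le_EG k C
    have h6 : 0 ≤ Real.log K / Real.log n := by positivity
    calc (r : ℝ) ≤ d := h4
      _ ≤ 420 * (1 + 2 * ((C + 1) * Real.log K) / Real.log n) := hd'
      _ = 420 * (1 + 2 * (C + 1) * (Real.log K / Real.log n)) := by ring
      _ ≤ (420 * (2 * C + 3)) * (1 + Real.log K / Real.log n) := by
          nlinarith [mul_nonneg hC0 h6]
      _ ≤ _ := by gcongr
  · have h4 : 0 < Nat.card H₀ := Nat.card_pos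
    exact hprod.trans ((Nat.le_mul_of_pos_right _ h4).trans hvol)
  · intro x hx
    obtain ⟨c, hc, rfl⟩ := Finset.mem_image.1 hx
    obtain ⟨a, ha, rfl⟩ := Finset.mem_image.1 (hYX hc)
    rw [← (hg a ha).2]
    exact (Finset.mem_filter.1 ha).1
  · intro x hx
    obtain ⟨c, hc, rfl⟩ := Finset.mem_image.1 hx
    obtain ⟨a, ha, hca⟩ := hY c hc
    refine ⟨fun i => (a i + L i).toNat, fun i => ?_, ?_⟩
    · have h4 := abs_le.1 (ha i)
      show (a i + L i).toNat < 2 * L i + 1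
      omega
    · have h5 : ∀ i, ((a i + L i).toNat) • ψ (v i) = a i • ψ (v i) + (L i : ℤ) • ψ (v i) := by
        intro i
        have h4 := abs_le.1 (ha i)
        have h6 : (((a i + L i).toNat : ℕ) : ℤ) = a i + L i := Int.toNat_of_nonneg (by omega)
        rw [← natCast_zsmul, h6, add_smul]
      simp only [h5]
      rw [Finset.sum_add_distrib, hca, map_add, hψ]
      abel
  · have hYim : (Y.image fun c => t + ψ c).card = Y.card := by
      refine Finset.card_image_of_injOn ?_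
      intro c hc c' hc' hcc
      obtain ⟨a, ha, rfl⟩ := Finset.mem_image.1 (hYX hc)
      obtain ⟨a', ha', rfl⟩ := Finset.mem_image.1 (hYX hc')
      have e : a = a' := by rw [(hg a ha).2, (hg a' ha').2]; exact hcc
      rw [e]
    rw [hYim]
    have h4 : (A.card : ℝ) ≤ T.card * (4 ^ d * (4 * (r : ℝ) ^ 3) ^ r * Y.card) := by
      have h5 : A.card ≤ T.card * (4 ^ d * (4 * r ^ 3) ^ r * Y.card) := by
        refine htA.trans (Nat.mul_le_mul_left _ ?_)
        rw [← hXcard]; exact hYcard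
      exact_mod_cast h5
    exact final_arith hK hr (Nat.cast_nonneg _) hT h4 (cost (k := k) (C := C) hK hn hkn hd')

end Pool.Agent.Q166.CS
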